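import Pool.Agent.H93.AR.Defs

/-! Module SI: invariance of the surface measure. -/

set_option autoImplicit false

open MeasureTheory Set
open scoped ENNReal NNReal

namespace Pool.Agent.H91.BR

open Pool.Agent.H93.AR Pool.Agent.H83.LS Pool.Agent.H54.LS

theorem nsp {n : ℕ} (w : Sp n) : ‖(w : EE n)‖ = 1 := by
  have := w.2
  rwa [mem_sphere_zero_iff_norm] at this

/-- integral in polar coordinates of a product -/
theorem polar_prod (n : ℕ) (hn : 1 ≤ n) (φ : ℝ → ℝ≥0∞) (hφ : Measurable φ) (h : EE n → ℝ≥0∞)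
    (hh : Measurable h) :
    ∫⁻ y : EE n, φ ‖y‖ * h (‖y‖⁻¹ • y) =
      (∫⁻ w : Sp n, h w ∂(sg n)) * ∫⁻ ρ : Ioi (0 : ℝ), φ ρ ∂(nu n) := by
  have hm : Measurable fun y : EE n => φ ‖y‖ * h (‖y‖⁻¹ • y) := by
    refine (hφ.comp measurable_norm).mul (hh.comp ?_)
    fun_prop
  have h1 : Measurable fun w : Sp n => h (w : EE n) := hh.comp measurable_subtype_coe
  have h2 : Measurable fun ρ : Ioi (0 : ℝ) => φ ρ := hφ.comp measurable_subtype_coe
  rw [← (mp_polar n hn).lintegral_comp hm, ← lintegral_prod_mul h1.aemeasurable h2.aemeasurable]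
  refine lintegral_congr fun q => ?_
  obtain ⟨w, ρ⟩ := q
  have hρ : 0 < (ρ : ℝ) := ρ.2
  have h3 : ‖(ρ : ℝ) • (w : EE n)‖ = ρ := by
    rw [norm_smul, nsp, mul_one, Real.norm_of_nonneg hρ.le]
  show φ ‖(ρ : ℝ) • (w : EE n)‖ * h (‖(ρ : ℝ) • (w : EE n)‖⁻¹ • ((ρ : ℝ) • (w : EE n))) =
    h (w : EE n) * φ ρ
  rw [h3, smul_smul, inv_mul_cancel₀ hρ.ne', one_smul, mul_comm]

/-- the radial mass of the unit ball -/
theorem radial_mass (n : ℕ) :
    ∫⁻ ρ : Ioi (0 : ℝ), (Iio (1 : ℝ)).indicator (1 : ℝ → ℝ≥0∞) ρ ∂(nu n) =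
      ENNReal.ofReal (1 / (((n - 1 : ℕ) : ℝ) + 1)) := by
  have h4 : ∀ ρ : Ioi (0 : ℝ), (Iio (1 : ℝ)).indicator (1 : ℝ → ℝ≥0∞) ρ =
      (Iio (⟨1, mem_Ioi.2 one_pos⟩ : Ioi (0 : ℝ))).indicator (1 : Ioi (0 : ℝ) → ℝ≥0∞) ρ := by
    intro ρ
    simp only [indicator]
    congr 1
  simp_rw [h4]
  rw [lintegral_indicator_one measurableSet_Iio]
  have h5 := Measure.volumeIoiPow_apply_Iio (n - 1) ⟨1, mem_Ioi.2 one_pos⟩
  rw [show (nu n) (Iio (⟨1, mem_Ioi.2 one_pos⟩ : Ioi (0 : ℝ))) =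
    (Measure.volumeIoiPow (n - 1)) (Iio (⟨1, mem_Ioi.2 one_pos⟩ : Ioi (0 : ℝ))) from rfl, h5]
  simp

theorem si_lint (n : ℕ) (Q : EE n ≃ₗᵢ[ℝ] EE n) (hn : 1 ≤ n) (h : EE n → ℝ≥0∞)
    (hh : Measurable h) :
    ∫⁻ w : Sp n, h (Q w) ∂(sg n) = ∫⁻ w : Sp n, h w ∂(sg n) := by
  have hQ : Measurable fun y : EE n => Q y := Q.continuous.measurable
  have hφ : Measurable ((Iio (1 : ℝ)).indicator (1 : ℝ → ℝ≥0∞)) :=
    measurable_one.indicator measurableSet_Iio
  have k1 := polar_prod n hn _ hφ h hh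
  have k2 := polar_prod n hn _ hφ (fun y => h (Q y)) (hh.comp hQ)
  have hm : Measurable fun y : EE n =>
      (Iio (1 : ℝ)).indicator (1 : ℝ → ℝ≥0∞) ‖y‖ * h (‖y‖⁻¹ • y) := by
    refine (hφ.comp measurable_norm).mul (hh.comp ?_)
    fun_prop
  have k3 : ∫⁻ y : EE n, (Iio (1 : ℝ)).indicator (1 : ℝ → ℝ≥0∞) ‖y‖ * h (Q (‖y‖⁻¹ • y)) =
      ∫⁻ y : EE n, (Iio (1 : ℝ)).indicator (1 : ℝ → ℝ≥0∞) ‖y‖ * h (‖y‖⁻¹ • y) := by
    rw [← Q.measurePreserving.lintegral_comp hm]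
    refine lintegral_congr fun y => ?_
    rw [Q.norm_map, map_smul]
  rw [k1, k2, radial_mass] at k3
  have hpos : (0 : ℝ) < 1 / (((n - 1 : ℕ) : ℝ) + 1) := by positivity
  have h0 : ENNReal.ofReal (1 / (((n - 1 : ℕ) : ℝ) + 1)) ≠ 0 :=
    (ENNReal.ofReal_pos.2 hpos).ne'
  exact (ENNReal.mul_left_inj h0 ENNReal.ofReal_ne_top).1 k3

theorem pf_si : T_SI := by
  intro n Q hn
  refine ⟨fun h hh => si_lint n Q hn h hh, ?_⟩
  intro h hh _
  let R : Sp n → Sp n := fun w => ⟨Q w, by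
    rw [mem_sphere_zero_iff_norm, Q.norm_map, nsp]⟩
  have hR : Measurable R := by
    refine Measurable.subtype_mk ?_
    exact Q.continuous.measurable.comp measurable_subtype_coe
  have hmap : (sg n).map R = sg n := by
    ext s hs
    rw [Measure.map_apply hR hs]
    have hs' : MeasurableSet ((fun w : Sp n => (w : EE n)) '' s) :=
      MeasurableSet.subtype_image (Metric.isClosed_sphere.measurableSet) hs
    have hi : ∀ w : Sp n, ((fun w : Sp n => (w : EE n)) '' s).indicator (1 : EE n → ℝ≥0∞) w =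
        s.indicator (1 : Sp n → ℝ≥0∞) w := by
      intro w
      by_cases hw : w ∈ s
      · rw [indicator_of_mem hw, indicator_of_mem (mem_image_of_mem _ hw)]
        rfl
      · rw [indicator_of_notMem hw, indicator_of_notMem]
        rintro ⟨w', hw', he⟩
        exact hw (Subtype.ext he ▸ hw')
    have h1 := si_lint n Q hn _ (measurable_one.indicator hs')
    have h2 : ∀ w : Sp n, ((fun w : Sp n => (w : EE n)) '' s).indicator (1 : EE n → ℝ≥0∞) (Q w) =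
        (R ⁻¹' s).indicator (1 : Sp n → ℝ≥0∞) w := by
      intro w
      rw [show (Q w : EE n) = ((R w : Sp n) : EE n) from rfl, hi (R w)]
      rfl
    rw [lintegral_congr h2, lintegral_congr hi, lintegral_indicator_one (hR hs),
      lintegral_indicator_one hs] at h1
    exact h1
  have h3 : AEStronglyMeasurable (fun w : Sp n => h (w : EE n)) ((sg n).map R) :=
    (hh.comp measurable_subtype_coe).aestronglyMeasurable
  have h4 := integral_map hR.aemeasurable h3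
  rw [hmap] at h4
  exact h4.symm

end Pool.Agent.H91.BR
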