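import Pool.Agent.H93.AR.Defs

/-! Module ZP: the zonal kernel as a density. -/

set_option autoImplicit false

open MeasureTheory Set
open scoped ENNReal NNReal

namespace Pool.Agent.H91.BR

open Pool.Agent.H93.AR Pool.Agent.H83.LS Pool.Agent.H54.LS

theorem nsp' {n : ℕ} (w : Sp n) : ‖(w : EE n)‖ = 1 := by
  have := w.2
  rwa [mem_sphere_zero_iff_norm] at this

theorem eta0_nonneg (s : ℝ) : 0 ≤ eta0 s := Real.smoothTransition.nonneg _

theorem eta0_zero {s : ℝ} (hs : 2 ≤ s) : eta0 s = 0 :=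
  Real.smoothTransition.zero_of_nonpos (by linarith)

theorem continuous_eta0 : Continuous eta0 := by
  unfold eta0
  exact Real.smoothTransition.continuous.comp (by fun_prop)

theorem bc_nonneg (n : ℕ) : 0 ≤ bc n :=
  inv_nonneg.2 (integral_nonneg fun _ => eta0_nonneg _)

theorem bump_nonneg (n : ℕ) {L : ℝ} (hL : 0 < L) (y : EE n) : 0 ≤ bump n L y :=
  mul_nonneg (mul_nonneg (bc_nonneg n) (pow_nonneg hL.le n)) (eta0_nonneg _)

theorem continuous_bump (n : ℕ) (L : ℝ) : Continuous (bump n L) := by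
  unfold bump
  exact continuous_const.mul (continuous_eta0.comp (by fun_prop))

theorem bump_zero (n : ℕ) {L : ℝ} (hL : 0 < L) {y : EE n} (hy : 1 / (2 * L) ≤ ‖y‖) :
    bump n L y = 0 := by
  unfold bump
  rw [eta0_zero, mul_zero]
  rw [div_le_iff₀ (by positivity)] at hy
  linarith

theorem zk_lint (n : ℕ) {L : ℝ} (hL : 0 < L) (u w : EE n) (hw : ‖w‖ = 1) :
    ENNReal.ofReal (zk n L u w) =
      ∫⁻ t in Ioi (0 : ℝ), ENNReal.ofReal (t ^ (n - 1)) * ENNReal.ofReal (bump n L (t • w - u)) := by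
  have hc : Continuous fun t : ℝ => bump n L (t • w - u) * t ^ (n - 1) := by
    refine ((continuous_bump n L).comp (by fun_prop)).mul (by fun_prop)
  have hcs : HasCompactSupport fun t : ℝ => bump n L (t • w - u) * t ^ (n - 1) := by
    refine HasCompactSupport.intro (isCompact_closedBall (0 : ℝ) (‖u‖ + 1 / (2 * L))) ?_
    intro t ht
    rw [Metric.mem_closedBall, dist_zero_right, not_le] at ht
    show bump n L (t • w - u) * t ^ (n - 1) = 0
    rw [bump_zero n hL, zero_mul]
    have h1 : ‖t • w‖ = ‖t‖ := by rw [norm_smul, hw, mul_one]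
    have h2 := norm_sub_norm_le (t • w) u
    rw [h1] at h2
    linarith
  have hi : Integrable fun t : ℝ => bump n L (t • w - u) * t ^ (n - 1) :=
    hc.integrable_of_hasCompactSupport hcs
  unfold zk
  rw [ofReal_integral_eq_lintegral_ofReal hi.integrableOn]
  · refine setLIntegral_congr_fun measurableSet_Ioi fun t ht => ?_
    show ENNReal.ofReal (bump n L (t • w - u) * t ^ (n - 1)) =
      ENNReal.ofReal (t ^ (n - 1)) * ENNReal.ofReal (bump n L (t • w - u))
    rw [ENNReal.ofReal_mul (bump_nonneg n hL _), mul_comm]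
  · refine (ae_restrict_iff' measurableSet_Ioi).2 (ae_of_all _ fun t ht => ?_)
    exact mul_nonneg (bump_nonneg n hL _) (pow_nonneg (le_of_lt ht) _)

theorem nu_lint (n : ℕ) (G : ℝ → ℝ≥0∞) (hG : Measurable G) :
    ∫⁻ ρ : Ioi (0 : ℝ), G ρ ∂(nu n) =
      ∫⁻ t in Ioi (0 : ℝ), ENNReal.ofReal (t ^ (n - 1)) * G t := by
  have h1 : Measurable fun ρ : Ioi (0 : ℝ) => ENNReal.ofReal ((ρ : ℝ) ^ (n - 1)) :=
    (ENNReal.measurable_ofReal.comp ((measurable_id.pow_const _).comp measurable_subtype_coe))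
  have h2 : Measurable fun ρ : Ioi (0 : ℝ) => G ρ := hG.comp measurable_subtype_coe
  show ∫⁻ ρ : Ioi (0 : ℝ), G ρ ∂((Measure.comap Subtype.val volume).withDensity
    fun r : Ioi (0 : ℝ) => ENNReal.ofReal ((r : ℝ) ^ (n - 1))) = _
  rw [lintegral_withDensity_eq_lintegral_mul _ h1 h2]
  exact lintegral_subtype_comap measurableSet_Ioi
    (fun t : ℝ => ENNReal.ofReal (t ^ (n - 1)) * G t)

theorem pf_zp : T_ZP := by
  intro n L u h hn hL hh
  have hb : Measurable fun y : EE n => ENNReal.ofReal (bump n L (y - u)) :=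
    ENNReal.measurable_ofReal.comp ((continuous_bump n L).comp (by fun_prop)).measurable
  have hf : Measurable fun y : EE n => ENNReal.ofReal (bump n L (y - u)) * h (‖y‖⁻¹ • y) := by
    refine hb.mul (hh.comp ?_)
    fun_prop
  -- translation
  have h1 := lintegral_add_left_eq_self (μ := (volume : Measure (EE n)))
    (fun y : EE n => ENNReal.ofReal (bump n L (y - u)) * h (‖y‖⁻¹ • y)) u
  simp only [add_sub_cancel_left] at h1
  have hm : Measurable fun q : Sp n × Ioi (0 : ℝ) =>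
      ENNReal.ofReal (bump n L ((q.2 : ℝ) • (q.1 : EE n) - u)) *
        h (‖(q.2 : ℝ) • (q.1 : EE n)‖⁻¹ • ((q.2 : ℝ) • (q.1 : EE n))) :=
    hf.comp (mp_polar n hn).measurable
  rw [h1, ← (mp_polar n hn).lintegral_comp hf, lintegral_prod _ hm.aemeasurable]
  refine lintegral_congr fun w => ?_
  have h2 : ∀ ρ : Ioi (0 : ℝ), ENNReal.ofReal (bump n L ((ρ : ℝ) • (w : EE n) - u)) *
      h (‖(ρ : ℝ) • (w : EE n)‖⁻¹ • ((ρ : ℝ) • (w : EE n))) =
      ENNReal.ofReal (bump n L ((ρ : ℝ) • (w : EE n) - u)) * h w := by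
    intro ρ
    have hρ : 0 < (ρ : ℝ) := ρ.2
    rw [norm_smul, nsp', mul_one, Real.norm_of_nonneg hρ.le, smul_smul,
      inv_mul_cancel₀ hρ.ne', one_smul]
  rw [lintegral_congr h2]
  have hG : Measurable fun t : ℝ => ENNReal.ofReal (bump n L (t • (w : EE n) - u)) :=
    ENNReal.measurable_ofReal.comp ((continuous_bump n L).comp (by fun_prop)).measurable
  have hG' : Measurable fun ρ : Ioi (0 : ℝ) =>
      ENNReal.ofReal (bump n L ((ρ : ℝ) • (w : EE n) - u)) := hG.comp measurable_subtype_coe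
  rw [lintegral_mul_const _ hG', nu_lint n _ hG, zk_lint n hL u w (nsp' w)]

end Pool.Agent.H91.BR
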